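import Pool.Agent.V1194.LP.Char

/-!
# The derivatives `Θ_{S,T}^{(r)}(0)` of the Stickelberger functions from the primes

Let `H/F` be a finite abelian extension of number fields with group `G`, `S` and `T` disjoint finite sets of
finite primes of `F` (`S` together with the archimedean places is the set `S` of Stark's conjecture, it contains
the ramified primes), `L_S(χ, s) = ∏_{v ∉ S} (1 - χ(v) Nv^{-s})⁻¹` and

`L_{S,T}(χ, s) = L_S(χ, s) ∏_{v ∈ T} (1 - χ(v) Nv^{1-s})`,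

and let `Θ(s) ∈ ℂ[G]` be the element with `χ(Θ(s)) = L_{S,T}(χ⁻¹, s)` for all characters `χ`; the coefficient of
`g ∈ G` in `θ = Θ^{(r)}(0)` is `θ_g = |G|⁻¹ ∑_χ χ(g) L_{S,T}^{(r)}(χ, 0)`. If `r` places of `S` split completely,
`#S ≥ r + 1`, then all `L_S(χ, s)` have order at least `r` at `s = 0`, and Stark's conjecture is equivalent
(Rubin) to the existence of `u ∈ 𝒰_r` with `φ(λ(u)) = θ`. The point `s = 0` is far from the half plane
`Re s > 1` of the Euler products. We show that nevertheless `θ` is a limit of explicit sums over primes. For a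
real number `γ > π/2` let

`W_χ(X) = ∑_{v ∉ S} ∑_{k ≥ 1} χ(v)^k/k · e^{iγu}/Γ(1 + u)`,  `u = k log Nv / log X`

(the weights tend to `1` for `X → ∞`), and `Λ_γ = ∫_0^∞ (e^{-t} - e^{iγt}/Γ(1+t)) dt/t`. Then:

1. all `W_χ(X)`, `X > 1`, converge absolutely, and for all `g ∈ G`

   `θ_g = lim_{X → ∞} r! e^{-rΛ_γ} (log X)^r |G|⁻¹ ∑_χ χ(g) ∏_{v ∈ T} (1 - χ(v) Nv) exp W_χ(X)`;
2. for every set `U` and every function `l(g, u)` (in the conjecture `U = 𝒰_r` and `l(g, u)` is the coefficient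
   of `g` in `φ(λ(u))`): there is `u ∈ U` with `l(g, u) = θ_g` for all `g`, if and only if there is `u ∈ U`
   such that `l(g, u)` is the limit in 1 for all `g`.

So Stark's conjecture for `(H/F, S, T, r)` is an explicit statement on the Frobenius automorphisms. No hypothesis
is made on zeros, in particular not on real zeros between `0` and `1` and not on the exact orders at `0`.
-/

set_option autoImplicit false

namespace Pool.Agent.Results.MP_d9bae3_nt.DerivativesFromPrimes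

open Filter Topology Set NumberField IsDedekindDomain

variable {K H : Type} [Field K] [NumberField K] [Field H] [NumberField H] [Algebra K H]

/-- The norm of `v`. -/
noncomputable def nrm (v : HeightOneSpectrum (𝓞 K)) : ℕ := Ideal.absNorm v.asIdeal

/-- `g` is the Frobenius automorphism of a prime `Q` of `H` above `v`: `g(x) ≡ x^(N v)` modulo `Q`. -/
def IsFrobenius (v : HeightOneSpectrum (𝓞 K)) (g : H ≃ₐ[K] H) : Prop :=
  ∃ Q : Ideal (𝓞 H), Q.IsPrime ∧ Q.comap (algebraMap (𝓞 K) (𝓞 H)) = v.asIdeal ∧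
    ∀ x y : 𝓞 H, (y : H) = g (x : H) → y - x ^ nrm v ∈ Q

/-- The group is abelian, the primes outside `S` are unramified in `H`, `frob v` is a Frobenius automorphism
for `v ∉ S`, and `X` is the set of all characters of the group. -/
structure IsData (S : Finset (HeightOneSpectrum (𝓞 K)))
    (frob : HeightOneSpectrum (𝓞 K) → (H ≃ₐ[K] H)) (X : Finset ((H ≃ₐ[K] H) →* ℂˣ)) : Prop where
  comm : ∀ g h : H ≃ₐ[K] H, g * h = h * g
  unramified : ∀ v ∉ S, Squarefree (v.asIdeal.map (algebraMap (𝓞 K) (𝓞 H)))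
  frobenius : ∀ v ∉ S, IsFrobenius v (frob v)
  characters : ∀ χ : (H ≃ₐ[K] H) →* ℂˣ, χ ∈ X

/-- `Λ(s) = L_S(χ, s)`: it is the Euler product for `Re s > 1`, meromorphic at the points of the real interval
`[0, 1]`, and analytic at `s = 0`, of order at least `r`. -/
structure IsLSeries (S : Finset (HeightOneSpectrum (𝓞 K)))
    (frob : HeightOneSpectrum (𝓞 K) → (H ≃ₐ[K] H)) (χ : (H ≃ₐ[K] H) →* ℂˣ) (r : ℕ) (Λ : ℂ → ℂ) :
    Prop where
  mero : ∀ x ∈ Icc (0 : ℝ) 1, MeromorphicAt Λ (x : ℂ)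
  prod : ∀ s : ℂ, 1 < s.re → Λ s =
    ∏' v : {v : HeightOneSpectrum (𝓞 K) // v ∉ S}, (1 - (nrm v.1 : ℂ) ^ (-s) * (χ (frob v.1) : ℂ))⁻¹
  analytic : AnalyticAt ℂ Λ 0
  order : (r : ℕ∞) ≤ analyticOrderAt Λ 0

/-- `L_{S,T}(χ, s) = L_S(χ, s) ∏_{v ∈ T} (1 - χ(v) Nv^{1-s})`. -/
noncomputable def LST (T : Finset (HeightOneSpectrum (𝓞 K)))
    (frob : HeightOneSpectrum (𝓞 K) → (H ≃ₐ[K] H)) (χ : (H ≃ₐ[K] H) →* ℂˣ) (Λ : ℂ → ℂ) (s : ℂ) : ℂ :=
  Λ s * ∏ v ∈ T, (1 - (χ (frob v) : ℂ) * (nrm v : ℂ) ^ (1 - s))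

/-- `θ_g = |G|⁻¹ ∑_χ χ(g) L_{S,T}^{(r)}(χ, 0)`, the coefficient of `g` in `Θ_{S,T}^{(r)}(0)`. -/
noncomputable def theta (T : Finset (HeightOneSpectrum (𝓞 K)))
    (frob : HeightOneSpectrum (𝓞 K) → (H ≃ₐ[K] H)) (X : Finset ((H ≃ₐ[K] H) →* ℂˣ))
    (Λ : ((H ≃ₐ[K] H) →* ℂˣ) → ℂ → ℂ) (r : ℕ) (g : H ≃ₐ[K] H) : ℂ :=
  (Nat.card (H ≃ₐ[K] H) : ℂ)⁻¹ *
    ∑ χ ∈ X, (χ g : ℂ) * iteratedDeriv r (LST T frob χ (Λ χ)) 0

/-- The weight `e^{iγu} / Γ(1 + u)`. -/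
noncomputable def weight (γ u : ℝ) : ℂ :=
  Complex.exp ((γ * u : ℝ) * Complex.I) / (Real.Gamma (1 + u) : ℂ)

/-- The term `χ(v)^k/k` times the weight at `u = k log Nv / log Y`. -/
noncomputable def term (frob : HeightOneSpectrum (𝓞 K) → (H ≃ₐ[K] H)) (χ : (H ≃ₐ[K] H) →* ℂˣ)
    (γ Y : ℝ) (v : HeightOneSpectrum (𝓞 K)) (k : ℕ) : ℂ :=
  (χ (frob v) : ℂ) ^ k / k * weight γ (k * Real.log (nrm v) / Real.log Y)

/-- `W_χ(Y)`, the sum over `v ∉ S` and `k ≥ 1` (here `k = x.2 + 1`). -/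
noncomputable def W (S : Finset (HeightOneSpectrum (𝓞 K)))
    (frob : HeightOneSpectrum (𝓞 K) → (H ≃ₐ[K] H)) (χ : (H ≃ₐ[K] H) →* ℂˣ) (γ Y : ℝ) : ℂ :=
  ∑' x : {v : HeightOneSpectrum (𝓞 K) // v ∉ S} × ℕ, term frob χ γ Y x.1.1 (x.2 + 1)

/-- `Λ_γ = ∫_0^∞ (e^{-t} - e^{iγt} / Γ(1 + t)) dt / t`. -/
noncomputable def Lam (γ : ℝ) : ℂ := ∫ t in Ioi (0 : ℝ),
  (Complex.exp (-(t : ℂ)) - Complex.exp ((γ * t : ℝ) * Complex.I) * ((Real.Gamma (1 + t))⁻¹ : ℝ)) / t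

/-- `r! e^{-rΛ_γ} (log Y)^r |G|⁻¹ ∑_χ χ(g) ∏_{v ∈ T} (1 - χ(v) Nv) exp W_χ(Y)`. -/
noncomputable def approx (S T : Finset (HeightOneSpectrum (𝓞 K)))
    (frob : HeightOneSpectrum (𝓞 K) → (H ≃ₐ[K] H)) (X : Finset ((H ≃ₐ[K] H) →* ℂˣ)) (r : ℕ)
    (g : H ≃ₐ[K] H) (γ Y : ℝ) : ℂ :=
  (r.factorial : ℂ) * Complex.exp (-(r * Lam γ)) * (Real.log Y : ℂ) ^ r *
    ((Nat.card (H ≃ₐ[K] H) : ℂ)⁻¹ *
      ∑ χ ∈ X, (χ g : ℂ) * ((∏ v ∈ T, (1 - (χ (frob v) : ℂ) * (nrm v : ℂ))) *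
        Complex.exp (W S frob χ γ Y)))

open Pool.Agent.V1194.LP

variable {S : Finset (HeightOneSpectrum (𝓞 K))} {frob : HeightOneSpectrum (𝓞 K) → (H ≃ₐ[K] H)}
  {χ : (H ≃ₐ[K] H) →* ℂˣ} {Λ : ℂ → ℂ} {γ : ℝ}

theorem norm_char (g : H ≃ₐ[K] H) : ‖(χ g : ℂ)‖ = 1 := by
  have h1 : χ g ^ Nat.card (H ≃ₐ[K] H) = 1 := by
    rw [← map_pow, pow_card_eq_one', map_one]
  have h2 : (χ g : ℂ) ^ Nat.card (H ≃ₐ[K] H) = 1 := by
    rw [← Units.val_pow_eq_pow_val, h1, Units.val_one]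
  have h3 := congrArg norm h2
  rw [norm_pow, norm_one] at h3
  exact (pow_eq_one_iff_of_nonneg (norm_nonneg _) Nat.card_pos.ne').1 h3

/-- the matrices -/
noncomputable def mat (frob : HeightOneSpectrum (𝓞 K) → (H ≃ₐ[K] H)) (χ : (H ≃ₐ[K] H) →* ℂˣ)
    (v : {v : HeightOneSpectrum (𝓞 K) | v ∉ S}) : Matrix (Fin 1) (Fin 1) ℂ :=
  (χ (frob v.1) : ℂ) • (1 : Matrix (Fin 1) (Fin 1) ℂ)

theorem eul : Pool.Agent.V11288.LZ.Eul 1 0 (fun v : {v : HeightOneSpectrum (𝓞 K) | v ∉ S} =>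
    (Ideal.absNorm v.1.asIdeal : ℝ)) (mat frob χ) :=
  eul_scal le_rfl (fun v => by exact_mod_cast Pool.Agent.H921R2.TatePole.two_le_nm v.1)
    (fun _ hx => (Pool.Agent.H921R2.TatePole.nm_summable hx).comp_injective
      Subtype.val_injective) (fun v => (norm_char _).le)

theorem term_eq (Y : ℝ) (x : {v : HeightOneSpectrum (𝓞 K) | v ∉ S} × ℕ) :
    Pool.Agent.V11288.LZ.tm (fun v : {v : HeightOneSpectrum (𝓞 K) | v ∉ S} =>
      (Ideal.absNorm v.1.asIdeal : ℝ)) (mat frob χ) 0 γ Y x = term frob χ γ Y x.1.1 (x.2 + 1) := by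
  unfold Pool.Agent.V11288.LZ.tm term weight Pool.Agent.V11288.LZ.wt nrm mat
  rw [Real.rpow_zero, Complex.ofReal_one, one_pow, mul_one, smul_pow, one_pow, Matrix.trace_smul,
    Matrix.trace_one, Fintype.card_fin, Nat.cast_one, smul_eq_mul, mul_one]

theorem W_eq (Y : ℝ) :
    Pool.Agent.V11288.LZ.tot (fun v : {v : HeightOneSpectrum (𝓞 K) | v ∉ S} =>
      (Ideal.absNorm v.1.asIdeal : ℝ)) (mat frob χ) 0 γ Y = W S frob χ γ Y :=
  tsum_congr fun x => term_eq Y x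

theorem prod_eq {r : ℕ} (hΛ : IsLSeries S frob χ r Λ) (s : ℂ) (hs : 1 + 0 < s.re) :
    Λ s = ∏' v : {v : HeightOneSpectrum (𝓞 K) | v ∉ S},
      ((1 - (((Ideal.absNorm v.1.asIdeal : ℝ)) : ℂ) ^ (-s) • mat frob χ v).det)⁻¹ := by
  rw [hΛ.prod s (by linarith)]
  refine tprod_congr fun v => ?_
  unfold mat nrm
  rw [Matrix.det_fin_one, Matrix.sub_apply, Matrix.one_apply_eq, Matrix.smul_apply,
    Matrix.smul_apply, Matrix.one_apply_eq, smul_eq_mul, smul_eq_mul, mul_one,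
    Complex.ofReal_natCast]

/-- the Taylor coefficient -/
theorem taylor {f : ℂ → ℂ} {r : ℕ} (hf : AnalyticAt ℂ f 0) (h : (r : ℕ∞) ≤ analyticOrderAt f 0) :
    Tendsto (fun s : ℂ => f s / s ^ r) (𝓝[≠] 0) (𝓝 (iteratedDeriv r f 0 / r.factorial)) := by
  obtain ⟨F, hF, h1⟩ := hf.exists_eventuallyEq_sum_add_pow_mul (r + 1)
  have h2 := (natCast_le_analyticOrderAt_iff_iteratedDeriv_eq_zero hf).1 h
  have h3 : Tendsto (fun s : ℂ => iteratedDeriv r f 0 / r.factorial + s * F s) (𝓝[≠] 0)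
      (𝓝 (iteratedDeriv r f 0 / r.factorial)) := by
    have h4 : Tendsto (fun s : ℂ => iteratedDeriv r f 0 / r.factorial + s * F s) (𝓝 0)
        (𝓝 (iteratedDeriv r f 0 / r.factorial + 0 * F 0)) :=
      tendsto_const_nhds.add (tendsto_id.mul hF.continuousAt.tendsto)
    rw [zero_mul, add_zero] at h4
    exact h4.mono_left nhdsWithin_le_nhds
  refine h3.congr' ?_
  filter_upwards [nhdsWithin_le_nhds h1, self_mem_nhdsWithin] with s hs hs0
  have hs0' : s ≠ 0 := hs0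
  rw [hs, Finset.sum_range_succ, Finset.sum_eq_zero fun i hi => by
    rw [h2 i (Finset.mem_range.1 hi), smul_zero]]
  simp only [smul_eq_mul, zero_add]
  have h5 : s ^ r ≠ 0 := pow_ne_zero _ hs0'
  rw [pow_succ]
  field_simp

theorem analytic_factor (T : Finset (HeightOneSpectrum (𝓞 K))) :
    AnalyticAt ℂ (fun s : ℂ => ∏ v ∈ T, (1 - (χ (frob v) : ℂ) * (nrm v : ℂ) ^ (1 - s))) 0 := by
  refine Finset.analyticAt_fun_prod _ fun v _ => ?_
  have h0 : (nrm v : ℂ) ≠ 0 := by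
    have h1 := Pool.Agent.H921R2.TatePole.two_le_nm v
    have h2 : (nrm v : ℕ) ≠ 0 := by
      have : 2 ≤ nrm v := by exact_mod_cast h1
      omega
    exact_mod_cast h2
  have h3 : AnalyticAt ℂ (fun s : ℂ => (nrm v : ℂ) ^ (1 - s)) 0 := by
    have h4 : (fun s : ℂ => (nrm v : ℂ) ^ (1 - s)) =
        fun s : ℂ => Complex.exp (Complex.log (nrm v) * (1 - s)) := by
      funext s
      rw [Complex.cpow_def_of_ne_zero h0]
    rw [h4]
    fun_prop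
  exact analyticAt_const.sub (analyticAt_const.mul h3)

theorem main (T : Finset (HeightOneSpectrum (𝓞 K))) {r : ℕ} (hΛ : IsLSeries S frob χ r Λ)
    (hγ : Real.pi / 2 < γ) :
    (∀ Y : ℝ, 1 < Y → Summable fun x : {v : HeightOneSpectrum (𝓞 K) // v ∉ S} × ℕ =>
      ‖term frob χ γ Y x.1.1 (x.2 + 1)‖) ∧
    Tendsto (fun Y : ℝ => (r.factorial : ℂ) * Complex.exp (-(r * Lam γ)) * (Real.log Y : ℂ) ^ r *
      ((∏ v ∈ T, (1 - (χ (frob v) : ℂ) * (nrm v : ℂ))) * Complex.exp (W S frob χ γ Y))) atTop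
      (𝓝 (iteratedDeriv r (LST T frob χ Λ) 0)) := by
  have hL : ∀ x ∈ Icc (0 : ℝ) (1 + 0), MeromorphicAt Λ (x : ℂ) := fun x hx =>
    hΛ.mero x ⟨hx.1, by linarith [hx.2]⟩
  obtain ⟨h1, -⟩ := package (eul (frob := frob) (χ := χ)) (L := Λ) 0 hL (prod_eq hΛ) hγ
  refine ⟨fun Y hY => (h1 Y hY).congr fun x => by rw [term_eq], ?_⟩
  -- the Taylor coefficients
  have hT1 := taylor hΛ.analytic hΛ.order
  have ha : AnalyticAt ℂ (LST T frob χ Λ) 0 := hΛ.analytic.mul (analytic_factor T)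
  have ho : (r : ℕ∞) ≤ analyticOrderAt (LST T frob χ Λ) 0 := by
    have h3 : analyticOrderAt (LST T frob χ Λ) 0 = analyticOrderAt Λ 0 + analyticOrderAt
        (fun s : ℂ => ∏ v ∈ T, (1 - (χ (frob v) : ℂ) * (nrm v : ℂ) ^ (1 - s))) 0 :=
      analyticOrderAt_mul hΛ.analytic (analytic_factor T)
    rw [h3]
    exact hΛ.order.trans le_self_add
  have hT2 := taylor ha ho
  have hE : Tendsto (fun s : ℂ => ∏ v ∈ T, (1 - (χ (frob v) : ℂ) * (nrm v : ℂ) ^ (1 - s))) (𝓝[≠] 0)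
      (𝓝 (∏ v ∈ T, (1 - (χ (frob v) : ℂ) * (nrm v : ℂ)))) := by
    have h3 := (analytic_factor (frob := frob) (χ := χ) T).continuousAt.tendsto
    simp only [sub_zero, Complex.cpow_one] at h3
    exact h3.mono_left nhdsWithin_le_nhds
  have hmul := hT1.mul hE
  have heq : iteratedDeriv r (LST T frob χ Λ) 0 / r.factorial =
      iteratedDeriv r Λ 0 / r.factorial * ∏ v ∈ T, (1 - (χ (frob v) : ℂ) * (nrm v : ℂ)) := by
    refine tendsto_nhds_unique hT2 (hmul.congr fun s => ?_)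
    unfold LST
    ring
  have hfac : (r.factorial : ℂ) ≠ 0 := by exact_mod_cast r.factorial_ne_zero
  have heq2 : iteratedDeriv r (LST T frob χ Λ) 0 = r.factorial *
      (iteratedDeriv r Λ 0 / r.factorial * ∏ v ∈ T, (1 - (χ (frob v) : ℂ) * (nrm v : ℂ))) := by
    rw [← heq, mul_div_cancel₀ _ hfac]
  have h2 := (coeff_iff (eul (frob := frob) (χ := χ)) (L := Λ) 0 hL (prod_eq hΛ) hγ r
    (iteratedDeriv r Λ 0 / r.factorial)).1 (by
      rw [Complex.ofReal_zero]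
      refine hT1.congr fun s => ?_
      rw [sub_zero, zpow_natCast])
  have h4 := h2.const_mul ((r.factorial : ℂ) * Complex.exp (-(r * Lam γ)) *
    ∏ v ∈ T, (1 - (χ (frob v) : ℂ) * (nrm v : ℂ)))
  have h5 : (r.factorial : ℂ) * Complex.exp (-(r * Lam γ)) *
      (∏ v ∈ T, (1 - (χ (frob v) : ℂ) * (nrm v : ℂ))) *
      (Complex.exp ((r : ℤ) * Pool.Agent.W187.UR.Lam γ) * (iteratedDeriv r Λ 0 / r.factorial)) =
      iteratedDeriv r (LST T frob χ Λ) 0 := by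
    rw [heq2]
    have e1 : Complex.exp (-(r * Lam γ)) * Complex.exp ((r : ℤ) * Pool.Agent.W187.UR.Lam γ) = 1 := by
      rw [← Complex.exp_add]
      have e2 : -((r : ℂ) * Lam γ) + ((r : ℤ) : ℂ) * Pool.Agent.W187.UR.Lam γ = 0 := by
        rw [Int.cast_natCast]
        exact neg_add_cancel _
      rw [e2, Complex.exp_zero]
    linear_combination ((r.factorial : ℂ) * (∏ v ∈ T, (1 - (χ (frob v) : ℂ) * (nrm v : ℂ))) *
      (iteratedDeriv r Λ 0 / r.factorial)) * e1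
  rw [h5] at h4
  refine h4.congr fun Y => ?_
  rw [W_eq, zpow_natCast]
  ring

/-- **The derivatives of the Stickelberger functions at `s = 0` from the primes.** -/
theorem result (S T : Finset (HeightOneSpectrum (𝓞 K)))
    (frob : HeightOneSpectrum (𝓞 K) → (H ≃ₐ[K] H)) (X : Finset ((H ≃ₐ[K] H) →* ℂˣ))
    (_ : IsData S frob X) (_ : Disjoint S T) (r : ℕ) (Λ : ((H ≃ₐ[K] H) →* ℂˣ) → ℂ → ℂ)
    (hΛ : ∀ χ, IsLSeries S frob χ r (Λ χ)) (γ : ℝ) (hγ : Real.pi / 2 < γ) :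
    (∀ (χ : (H ≃ₐ[K] H) →* ℂˣ) (Y : ℝ), 1 < Y →
      Summable fun x : {v : HeightOneSpectrum (𝓞 K) // v ∉ S} × ℕ =>
        ‖term frob χ γ Y x.1.1 (x.2 + 1)‖) ∧
    (∀ g : H ≃ₐ[K] H, Tendsto (fun Y : ℝ => approx S T frob X r g γ Y) atTop
      (𝓝 (theta T frob X Λ r g))) ∧
    ∀ (U : Type) (l : (H ≃ₐ[K] H) → U → ℂ),
      (∃ u : U, ∀ g : H ≃ₐ[K] H, l g u = theta T frob X Λ r g) ↔
        ∃ u : U, ∀ g : H ≃ₐ[K] H,
          Tendsto (fun Y : ℝ => approx S T frob X r g γ Y) atTop (𝓝 (l g u)) := by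
  have key : ∀ g : H ≃ₐ[K] H, Tendsto (fun Y : ℝ => approx S T frob X r g γ Y) atTop
      (𝓝 (theta T frob X Λ r g)) := by
    intro g
    have h2 : Tendsto (fun Y : ℝ => (Nat.card (H ≃ₐ[K] H) : ℂ)⁻¹ * ∑ χ ∈ X, (χ g : ℂ) *
        ((r.factorial : ℂ) * Complex.exp (-(r * Lam γ)) * (Real.log Y : ℂ) ^ r *
          ((∏ v ∈ T, (1 - (χ (frob v) : ℂ) * (nrm v : ℂ))) * Complex.exp (W S frob χ γ Y)))) atTop
        (𝓝 (theta T frob X Λ r g)) := by
      refine Tendsto.const_mul _ (tendsto_finsetSum _ fun χ _ => Tendsto.const_mul _ ?_)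
      exact (main T (hΛ χ) hγ).2
    refine h2.congr fun Y => ?_
    unfold approx
    rw [mul_left_comm ((r.factorial : ℂ) * Complex.exp (-(r * Lam γ)) * (Real.log Y : ℂ) ^ r)]
    congr 1
    rw [Finset.mul_sum]
    refine Finset.sum_congr rfl fun χ _ => ?_
    ring
  refine ⟨fun χ => (main T (hΛ χ) hγ).1, key, fun U l => exists_congr fun u => forall_congr' fun g =>
    ⟨fun h => ?_, fun h => tendsto_nhds_unique h (key g)⟩⟩
  rw [h]
  exact key g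

end Pool.Agent.Results.MP_d9bae3_nt.DerivativesFromPrimes
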